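import Pool.Agent.Helper69.VX.All

/-!
# The standard deviation of the chromatic number of `G(n,p)` is `O(√n / (log n)^{3/2})`
for all `n` and all constant `p`
-/

set_option autoImplicit false

namespace Pool.Agent.Results.MP_e12aa9_pr.AllEdgeProbabilities

/-- Expectation of `F` over the binomial random graph `G(n,p)` on the vertex set `Fin n`. -/
noncomputable def expect (p : ℝ) (n : ℕ) (F : SimpleGraph (Fin n) → ℝ) : ℝ :=
  ∑ G : SimpleGraph (Fin n), p ^ G.edgeSet.ncard * (1 - p) ^ (n.choose 2 - G.edgeSet.ncard) * F G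

/-- The variance of the chromatic number of `G(n,p)`. -/
noncomputable def variance (p : ℝ) (n : ℕ) : ℝ :=
  expect p n (fun G => ((G.chromaticNumber.toNat : ℝ) -
    expect p n (fun H => (H.chromaticNumber.toNat : ℝ))) ^ 2)

open Pool.Agent.Helper82.CN in
theorem variance_eq (p : ℝ) (n : ℕ) : variance p n = vn p n := by
  have h1 : expect p n (fun H => (H.chromaticNumber.toNat : ℝ)) = fn p n :=
    Pool.Agent.Helper11.PV.aBRG p n _
  unfold variance
  rw [h1]
  exact Pool.Agent.Helper11.PV.aBRG p n _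

/-- Let `0 < p₀ < p₁ < 1`. There is `C` such that for all `n ≥ 2` and all `p ∈ [p₀,p₁]` the
standard deviation of the chromatic number of `G(n,p)` is at most `C √n / (log n)^{3/2}`. -/
theorem result : ∀ p₀ p₁ : ℝ, 0 < p₀ → p₀ < p₁ → p₁ < 1 → ∃ C : ℝ, ∀ (n : ℕ) (p : ℝ), 2 ≤ n →
    p₀ ≤ p → p ≤ p₁ → √(variance p n) ≤ C * (√(n : ℝ) / Real.log n ^ ((3 : ℝ) / 2)) := by
  intro p₀ p₁ h0 h01 h1
  obtain ⟨C, hC, h⟩ := Pool.Agent.Helper69.VX.aFIN p₀ p₁ h0 h01 h1
  refine ⟨√C, fun n p hn hp hp' => ?_⟩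
  have hlog : 0 < Real.log n := Real.log_pos (by exact_mod_cast hn)
  have h3 := h n p hn hp hp'
  rw [variance_eq]
  have e1 : Real.log n ^ ((3 : ℝ) / 2) = √(Real.log n ^ 3) := by
    rw [Real.sqrt_eq_rpow, ← Real.rpow_natCast, ← Real.rpow_mul hlog.le]
    norm_num
  rw [e1, ← Real.sqrt_div (Nat.cast_nonneg n), ← Real.sqrt_mul hC.le]
  exact Real.sqrt_le_sqrt h3

end Pool.Agent.Results.MP_e12aa9_pr.AllEdgeProbabilities
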