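import Pool.Agent.Helper69.UX.All

/-!
# The standard deviation of the chromatic number of `G(n,p)` is at most `n^{1/4+ε}` for a positive
proportion of all `n`, and at most `n^{θ(n)/2+ε}` whenever `θ(n) = frac α₀(n) ≥ 1/2`
-/

set_option autoImplicit false

namespace Pool.Agent.Results.MP_e12aa9_pr.ExponentOneQuarter

open Finset

/-- Expectation of `F` over the binomial random graph `G(n,p)` on the vertex set `Fin n`. -/
noncomputable def expect (p : ℝ) (n : ℕ) (F : SimpleGraph (Fin n) → ℝ) : ℝ :=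
  ∑ G : SimpleGraph (Fin n), p ^ G.edgeSet.ncard * (1 - p) ^ (n.choose 2 - G.edgeSet.ncard) * F G

/-- The standard deviation of the chromatic number of `G(n,p)`. -/
noncomputable def sigma (p : ℝ) (n : ℕ) : ℝ :=
  √(expect p n (fun G => ((G.chromaticNumber.toNat : ℝ) -
    expect p n (fun H => (H.chromaticNumber.toNat : ℝ))) ^ 2))

/-- `α₀(n) = 2 log_b n - 2 log_b log_b n + 2 log_b (e/2) + 1`, `b = 1/(1-p)`. -/
noncomputable def alpha (p : ℝ) (n : ℕ) : ℝ :=
  2 * Real.logb (1 / (1 - p)) n - 2 * Real.logb (1 / (1 - p)) (Real.logb (1 / (1 - p)) n) +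
    2 * Real.logb (1 / (1 - p)) (Real.exp 1 / 2) + 1

open Pool.Agent.Helper82.CN in
theorem sigma_eq (p : ℝ) (n : ℕ) : sigma p n = sn p n := by
  have h1 : expect p n (fun H => (H.chromaticNumber.toNat : ℝ)) = fn p n :=
    Pool.Agent.Helper11.PV.aBRG p n _
  unfold sigma
  rw [h1]
  have h2 : expect p n (fun G => ((G.chromaticNumber.toNat : ℝ) - fn p n) ^ 2) = vn p n :=
    Pool.Agent.Helper11.PV.aBRG p n _
  rw [h2]
  rfl

open Pool.Agent.Helper82.CN in
theorem alpha_eq (p : ℝ) (n : ℕ) : alpha p n = Pool.Agent.Helper69.UX.a0 p n := by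
  have h : Real.log (Real.exp 1 / 2) = 1 - Real.log 2 := by
    rw [Real.log_div (Real.exp_pos 1).ne' two_ne_zero, Real.log_exp]
  simp only [alpha, Pool.Agent.Helper69.UX.a0, Pool.Agent.Helper82.CN.al,
    Pool.Agent.Helper82.CN.bb, Real.logb, h]
  ring

open Classical in
/-- Let `0 < p ≤ 1 - e⁻²` and `ε > 0`. For all large `n` whose `α₀(n)` has fractional part
`θ ≥ 1/2` the standard deviation of the chromatic number of `G(n,p)` is at most `n ^ (θ/2 + ε)`;
and it is at most `n ^ (1/4 + ε)` for a set of `n` of positive lower density. -/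
theorem result : ∀ p : ℝ, 0 < p → p ≤ 1 - 1 / Real.exp 2 → ∀ ε : ℝ, 0 < ε →
    (∃ n₀ : ℕ, ∀ n : ℕ, n₀ ≤ n → 1 / 2 ≤ Int.fract (alpha p n) →
      sigma p n ≤ (n : ℝ) ^ (Int.fract (alpha p n) / 2 + ε)) ∧
    ∃ c C : ℝ, 0 < c ∧ ∃ N₀ : ℕ, ∀ N : ℕ, N₀ ≤ N →
      c * N ≤ (((Icc N ⌊C * N⌋₊).filter
        (fun n : ℕ => sigma p n ≤ (n : ℝ) ^ (1 / 4 + ε))).card : ℝ) := by
  classical
  intro p hp hp1 ε hε
  have hs : sigma p = Pool.Agent.Helper82.CN.sn p := funext fun n => sigma_eq p n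
  have ha : alpha p = fun n : ℕ => Pool.Agent.Helper69.UX.a0 p n := funext fun n => alpha_eq p n
  rw [hs, ha]
  exact ⟨Pool.Agent.Helper69.UX.aUXF p ε hp hp1 hε,
    Pool.Agent.Helper69.UX.aUXD p (1 / 4 + ε) hp hp1 (by linarith)⟩

end Pool.Agent.Results.MP_e12aa9_pr.ExponentOneQuarter
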