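import Pool.Agent.Helper82.CN.All

/-!
# The chromatic number of `G(n,p)` has fluctuations of order at least `n^x`, `x < 1/2`, for a
positive proportion of all `n`
-/

set_option autoImplicit false

namespace Pool.Agent.Results.MP_e12aa9_pr.LargeFluctuations

open Finset

/-- Expectation of `F` over the binomial random graph `G(n,p)` on the vertex set `Fin n`. -/
noncomputable def expect (p : ℝ) (n : ℕ) (F : SimpleGraph (Fin n) → ℝ) : ℝ :=
  ∑ G : SimpleGraph (Fin n), p ^ G.edgeSet.ncard * (1 - p) ^ (n.choose 2 - G.edgeSet.ncard) * F G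

/-- The standard deviation of the chromatic number of `G(n,p)`. -/
noncomputable def sigma (p : ℝ) (n : ℕ) : ℝ :=
  √(expect p n (fun G => ((G.chromaticNumber.toNat : ℝ) -
    expect p n (fun H => (H.chromaticNumber.toNat : ℝ))) ^ 2))

open Pool.Agent.Helper82.CN in
theorem sigma_eq (p : ℝ) (n : ℕ) : sigma p n = sn p n := by
  have h1 : expect p n (fun H => (H.chromaticNumber.toNat : ℝ)) = fn p n := aBRG p n _
  unfold sigma
  rw [h1]
  have h2 : expect p n (fun G => ((G.chromaticNumber.toNat : ℝ) - fn p n) ^ 2) = vn p n :=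
    aBRG p n _
  rw [h2]
  rfl

open Classical in
/-- Let `0 < p ≤ 1 - e⁻²`, `0 ≤ x < 1/2`. In every interval `(N, C N]` with `C` and `N` large
enough, the set of the `n` for which the standard deviation of the chromatic number of `G(n,p)` is
at least `n ^ x` has logarithmic density at least `(1 - 2 x) ^ 2 / 2 - ε`. -/
theorem result : ∀ p : ℝ, 0 < p → p ≤ 1 - 1 / Real.exp 2 → ∀ x : ℝ, 0 ≤ x → x < 1 / 2 →
    ∀ ε : ℝ, 0 < ε → ∃ (C₀ : ℝ) (N₀ : ℕ), ∀ (C : ℝ) (N : ℕ), C₀ ≤ C → N₀ ≤ N →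
      ((1 - 2 * x) ^ 2 / 2 - ε) * Real.log C ≤
        ∑ n ∈ (Ioc N ⌊C * N⌋₊).filter (fun n : ℕ => (n : ℝ) ^ x ≤ sigma p n), 1 / (n : ℝ) := by
  classical
  intro p hp hp1 x hx hx2 ε hε
  have hs : sigma p = Pool.Agent.Helper82.CN.sn p := funext fun n => sigma_eq p n
  rw [hs]
  exact Pool.Agent.Helper82.CN.aLGW p x ε hp hp1 hx hx2 hε

end Pool.Agent.Results.MP_e12aa9_pr.LargeFluctuations
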