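import Pool.Agent.Helper69.SHT.All
import Pool.Agent.Helper69.UX.SPCAll

/-!
# The exponent of the standard deviation of the chromatic number of `G(n,p)` in short intervals
-/

set_option autoImplicit false

namespace Pool.Agent.Results.MP_e12aa9_pr.ShortIntervals

open Finset

/-- Expectation of `F` over the binomial random graph `G(n,p)` on the vertex set `Fin n`. -/
noncomputable def expect (p : ℝ) (n : ℕ) (F : SimpleGraph (Fin n) → ℝ) : ℝ :=
  ∑ G : SimpleGraph (Fin n), p ^ G.edgeSet.ncard * (1 - p) ^ (n.choose 2 - G.edgeSet.ncard) * F G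

/-- The standard deviation of the chromatic number of `G(n,p)`. -/
noncomputable def sigma (p : ℝ) (n : ℕ) : ℝ :=
  √(expect p n (fun G => ((G.chromaticNumber.toNat : ℝ) -
    expect p n (fun H => (H.chromaticNumber.toNat : ℝ))) ^ 2))

/-- `α₀(n) = 2 log_b n - 2 log_b log_b n + 2 log_b (e/2) + 1`, `b = 1/(1-p)`. -/
noncomputable def alpha (p : ℝ) (n : ℕ) : ℝ :=
  2 * Real.logb (1 / (1 - p)) n - 2 * Real.logb (1 / (1 - p)) (Real.logb (1 / (1 - p)) n) +
    2 * Real.logb (1 / (1 - p)) (Real.exp 1 / 2) + 1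

open Pool.Agent.Helper82.CN in
theorem sigma_eq (p : ℝ) (n : ℕ) : sigma p n = sn p n := by
  have h1 : expect p n (fun H => (H.chromaticNumber.toNat : ℝ)) = fn p n :=
    Pool.Agent.Helper11.PV.aBRG p n _
  unfold sigma
  rw [h1]
  have h2 : expect p n (fun G => ((G.chromaticNumber.toNat : ℝ) - fn p n) ^ 2) = vn p n :=
    Pool.Agent.Helper11.PV.aBRG p n _
  rw [h2]
  rfl

open Pool.Agent.Helper82.CN in
theorem alpha_eq (p : ℝ) (n : ℕ) : alpha p n = Pool.Agent.Helper69.UX.a0 p n := by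
  have h : Real.log (Real.exp 1 / 2) = 1 - Real.log 2 := by
    rw [Real.log_div (Real.exp_pos 1).ne' two_ne_zero, Real.log_exp]
  simp only [alpha, Pool.Agent.Helper69.UX.a0, Pool.Agent.Helper82.CN.al,
    Pool.Agent.Helper82.CN.bb, Real.logb, h]
  ring

open Classical in
/-- Let `0 < p ≤ 1 - e⁻²` and `ε > 0`. (a) For all large `N` whose `α₀(N)` has fractional part
`θ ≥ 1/2` and all `W` between `N ^ (θ + ε)` and `η N` at least `(1 - θ - ε) W` of the `W` integers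
`n` in `(N, N + W]` have a standard deviation of the chromatic number of `G(n,p)` between
`N ^ (θ/2 - ε)` and `N ^ (θ/2 + ε)`. (b) For every `x ∈ [1/4, 1/2)` the `n` for which it lies
between `n ^ (x - ε)` and `n ^ (x + ε)` have positive lower density. -/
theorem result : ∀ p : ℝ, 0 < p → p ≤ 1 - 1 / Real.exp 2 → ∀ ε : ℝ, 0 < ε →
    (∃ η : ℝ, 0 < η ∧ ∃ N₀ : ℕ, ∀ N W : ℕ, N₀ ≤ N → 1 / 2 ≤ Int.fract (alpha p N) →
      (N : ℝ) ^ (Int.fract (alpha p N) + ε) ≤ W → (W : ℝ) ≤ η * N →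
      (1 - Int.fract (alpha p N) - ε) * W ≤ (((Ioc N (N + W)).filter
        (fun n => (N : ℝ) ^ (Int.fract (alpha p N) / 2 - ε) ≤ sigma p n ∧
          sigma p n ≤ (N : ℝ) ^ (Int.fract (alpha p N) / 2 + ε))).card : ℝ)) ∧
    ∀ x : ℝ, 1 / 4 ≤ x → x < 1 / 2 → ∃ c C : ℝ, 0 < c ∧ ∃ N₀ : ℕ, ∀ N : ℕ, N₀ ≤ N →
      c * N ≤ (((Icc N ⌊C * N⌋₊).filter (fun n : ℕ => (n : ℝ) ^ (x - ε) ≤ sigma p n ∧
        sigma p n ≤ (n : ℝ) ^ (x + ε))).card : ℝ) := by
  classical
  intro p hp hp1 ε hε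
  have hs : sigma p = Pool.Agent.Helper82.CN.sn p := funext fun n => sigma_eq p n
  have ha : alpha p = fun n : ℕ => Pool.Agent.Helper69.UX.a0 p n := funext fun n => alpha_eq p n
  rw [hs, ha]
  exact ⟨Pool.Agent.Helper69.SHT.aSHT p ε hp hp1 hε,
    fun x hx hx2 => Pool.Agent.Helper69.UX.aSPC p x ε hp hp1 hx hx2 hε⟩

end Pool.Agent.Results.MP_e12aa9_pr.ShortIntervals
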